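import Pool.Agent.H.MP_43e44c_ag.GL.MainB
import Pool.Agent.H.MP_43e44c_ag.GU.FinU

/-!
Galois CM fields: the two-sided bound in terms of subfields.
-/

set_option autoImplicit false

open NumberField Finset Module

namespace Pool.MP43e44c.GF

open Pool.MP43e44c.GL

/-- The imaginary quadratic subfields `F` of the CM field `K` with `[K : F]` even. -/
def quadraticSubfields (K : Type*) [Field K] [NumberField K] : Set (IntermediateField ℚ K) :=
  {F | finrank ℚ F = 2 ∧ (∃ x ∈ F, x ∉ maximalRealSubfield K) ∧ Even (finrank F K)}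

/-- The non-real subfields `F` of the CM field `K` which are cyclic over the rationals of degree four
with `[K : F]` even, or cyclic of degree six. -/
def cyclicSubfields (K : Type*) [Field K] [NumberField K] : Set (IntermediateField ℚ K) :=
  {F | IsGalois ℚ F ∧ IsCyclic (F ≃ₐ[ℚ] F) ∧ (∃ x ∈ F, x ∉ maximalRealSubfield K) ∧
    (finrank ℚ F = 4 ∧ Even (finrank F K) ∨ finrank ℚ F = 6)}

/-- The non-real subfields `F` of the CM field `K` which are Galois over the rationals with dihedral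
Galois group of order eight or twelve. -/
def dihedralSubfields (K : Type*) [Field K] [NumberField K] : Set (IntermediateField ℚ K) :=
  {F | IsGalois ℚ F ∧ (∃ x ∈ F, x ∉ maximalRealSubfield K) ∧
    (Nonempty ((F ≃ₐ[ℚ] F) ≃* DihedralGroup 4) ∨ Nonempty ((F ≃ₐ[ℚ] F) ≃* DihedralGroup 6))}

theorem notMem_real (K : Type*) [Field K] [NumberField K] (x : K) :
    x ∉ maximalRealSubfield K ↔ ∃ φ : K →+* ℂ, (φ x).im ≠ 0 := by
  rw [mem_maximalRealSubfield_iff]
  push Not
  refine exists_congr fun φ => ?_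
  rw [Ne, Ne, ← Complex.conj_eq_iff_im]
  rfl

theorem exists_notMem (K : Type*) [Field K] [NumberField K] (F : IntermediateField ℚ K) :
    (∃ x ∈ F, x ∉ maximalRealSubfield K) ↔ ∃ x ∈ F, ∃ φ : K →+* ℂ, (φ x).im ≠ 0 := by
  simp only [notMem_real]

variable {K : Type*} [Field K] [NumberField K] {n : ℕ}

theorem card_gal (F : IntermediateField ℚ K) [IsGalois ℚ F] :
    Nat.card (F ≃ₐ[ℚ] F) = finrank ℚ F := IsGalois.card_aut_eq_finrank ℚ F

theorem quad_eq (hK : finrank ℚ K = 2 * n) : quadraticSubfields K = GCnt K n 0 := by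
  ext F
  have hmul := finrank_mul_finrank ℚ F K
  simp only [quadraticSubfields, GCnt, GSub, GTyp, Set.mem_setOf_eq, exists_notMem]
  constructor
  · rintro ⟨h1, h2, h3⟩
    have : IsGalois ℚ F := by
      have h4 : Algebra.IsQuadraticExtension ℚ F := ⟨h1⟩
      infer_instance
    have h5 : Nat.card (F ≃ₐ[ℚ] F) = 2 := by rw [card_gal, h1]
    have h6 : IsCyclic (F ≃ₐ[ℚ] F) := by
      have : Fact (Nat.Prime 2) := ⟨Nat.prime_two⟩
      exact isCyclic_of_prime_card h5
    refine ⟨⟨inferInstance, h2, h6, h5⟩, fun _ => ?_, fun h => by simp at h⟩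
    have h7 : finrank F K = n := by
      rw [h1, hK] at hmul
      omega
    rw [h7] at h3
    exact h3.two_dvd
  · rintro ⟨⟨h1, h2, h3, h4⟩, h5, h6⟩
    rw [card_gal] at h4
    refine ⟨h4, h2, ?_⟩
    have h7 : finrank F K = n := by
      rw [h4, hK] at hmul
      omega
    rw [h7]
    exact even_iff_two_dvd.2 (h5 trivial)

theorem cyc_eq (hK : finrank ℚ K = 2 * n) : cyclicSubfields K = GCnt K n 1 ∪ GCnt K n 2 := by
  ext F
  have hmul := finrank_mul_finrank ℚ F K
  simp only [cyclicSubfields, GCnt, GSub, GTyp, Set.mem_setOf_eq, exists_notMem, Set.mem_union]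
  constructor
  · rintro ⟨h1, h2, h3, h4⟩
    rcases h4 with ⟨h4, h5⟩ | h4
    · left
      refine ⟨⟨h1, h3, h2, by rw [card_gal, h4]⟩, fun h => by simp at h, fun _ => ?_⟩
      rw [h4, hK] at hmul
      obtain ⟨m, hm⟩ := h5
      exact ⟨m, by omega⟩
    · right
      exact ⟨⟨h1, h3, h2, by rw [card_gal, h4]⟩, fun h => by simp at h, fun h => by simp at h⟩
  · rintro (⟨⟨h1, h2, h3, h4⟩, h5, h6⟩ | ⟨⟨h1, h2, h3, h4⟩, h5, h6⟩)
    · rw [card_gal] at h4
      refine ⟨h1, h3, h2, Or.inl ⟨h4, ?_⟩⟩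
      obtain ⟨m, hm⟩ := h6 trivial
      rw [h4, hK] at hmul
      exact ⟨m, by omega⟩
    · rw [card_gal] at h4
      exact ⟨h1, h3, h2, Or.inr h4⟩

theorem cyc_disj : Disjoint (GCnt K n 1) (GCnt K n 2) := by
  rw [Set.disjoint_left]
  rintro F ⟨⟨h1, h2, h3, h4⟩, -⟩ ⟨⟨h5, h6, h7, h8⟩, -⟩
  omega

theorem dih_eq : dihedralSubfields K = GCnt K n 3 ∪ GCnt K n 4 := by
  ext F
  simp only [dihedralSubfields, GCnt, GSub, GTyp, Set.mem_setOf_eq, exists_notMem, Set.mem_union]
  constructor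
  · rintro ⟨h1, h2, h3 | h3⟩
    · left
      exact ⟨⟨h1, h2, h3⟩, fun h => by simp at h, fun h => by simp at h⟩
    · right
      exact ⟨⟨h1, h2, h3⟩, fun h => by simp at h, fun h => by simp at h⟩
  · rintro (⟨⟨h1, h2, h3⟩, -⟩ | ⟨⟨h1, h2, h3⟩, -⟩)
    · exact ⟨h1, h2, Or.inl h3⟩
    · exact ⟨h1, h2, Or.inr h3⟩

theorem dih_disj : Disjoint (GCnt K n 3) (GCnt K n 4) := by
  rw [Set.disjoint_left]
  rintro F ⟨⟨h1, h2, ⟨e⟩⟩, -⟩ ⟨⟨h5, h6, ⟨e'⟩⟩, -⟩
  have h := Nat.card_congr (e.symm.trans e').toEquiv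
  rw [DihedralGroup.nat_card, DihedralGroup.nat_card] at h
  omega

theorem cnt_finite (k : Fin 5) : (GCnt K n k).Finite := by
  have : Finite (IntermediateField ℚ K) := Field.exists_primitive_element_iff_finite_intermediateField
    ℚ K |>.1 ⟨inferInstance, Field.exists_primitive_element ℚ K⟩
  exact Set.toFinite _

/-- The sum of the expected contributions of the subfields. -/
theorem sum_eq (hK : finrank ℚ K = 2 * n) :
    ((quadraticSubfields K).ncard : ℝ) / √n + (cyclicSubfields K).ncard / n +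
      (dihedralSubfields K).ncard * Real.log n / n = ∑ k, (GCnt K n k).ncard * al k n := by
  rw [quad_eq hK, cyc_eq hK, dih_eq (n := n), Set.ncard_union_eq cyc_disj (cnt_finite 1) (cnt_finite 2),
    Set.ncard_union_eq dih_disj (cnt_finite 3) (cnt_finite 4)]
  push_cast
  rw [← GU.finU_sum (n := (n : ℝ)) (fun k => al k n) rfl rfl rfl rfl rfl
      (fun k => ((GCnt K n k).ncard : ℝ)) rfl rfl rfl rfl rfl]

end Pool.MP43e44c.GF
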