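import Pool.Agent.H.MP_43e44c_ag.GZ.MainL
import Pool.Agent.H.MP_43e44c_ag.GF.Main

/-!
CM fields: the subfields which count.
-/

set_option autoImplicit false

open NumberField Finset Module

namespace Pool.MP43e44c.GF

open Pool.MP43e44c.GL Pool.MP43e44c.GZ

/-- The quartic subfields which count. -/
def quarticSubfields (K : Type*) [Field K] [NumberField K] : Set (IntermediateField ℚ K) :=
  {F | finrank ℚ F = 4 ∧ (∃ x ∈ F, x ∉ maximalRealSubfield K) ∧ Even (finrank F K) ∧
    ∀ E ≤ F, finrank ℚ E = 2 → ∀ x ∈ E, x ∈ maximalRealSubfield K}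

/-- The sextic subfields which count. -/
def sexticSubfields (K : Type*) [Field K] [NumberField K] : Set (IntermediateField ℚ K) :=
  {F | finrank ℚ F = 6 ∧ ∃ E ≤ F, finrank ℚ E = 2 ∧ ∃ x ∈ E, x ∉ maximalRealSubfield K}

variable {K : Type*} [Field K] [NumberField K] {n : ℕ}

theorem nr_iff_mem (F : IntermediateField ℚ K) : NR F ↔ ∃ x ∈ F, x ∉ maximalRealSubfield K := by
  unfold NR
  exact (exists_notMem K F).symm

theorem quadX : quadraticSubfields K = XSub K 0 := by
  ext F
  simp only [quadraticSubfields, XSub, Set.mem_setOf_eq, nr_iff_mem]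
  tauto

theorem quartX : quarticSubfields K = XSub K 1 := by
  ext F
  simp only [quarticSubfields, XSub, Set.mem_setOf_eq, nr_iff_mem]
  have h : (∀ E ≤ F, finrank ℚ E = 2 → ¬ ∃ x ∈ E, x ∉ maximalRealSubfield K) ↔
      ∀ E ≤ F, finrank ℚ E = 2 → ∀ x ∈ E, x ∈ maximalRealSubfield K := by
    refine forall_congr' fun E => forall_congr' fun _ => forall_congr' fun _ => ?_
    push Not
    rfl
  rw [h]
  tauto

theorem sextX : sexticSubfields K = XSub K 2 := by
  ext F
  simp only [sexticSubfields, XSub, Set.mem_setOf_eq, nr_iff_mem]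
  constructor
  · rintro ⟨h1, E, hE, h2, x, hx, h3⟩
    exact ⟨⟨x, hE hx, h3⟩, h1, E, hE, h2, x, hx, h3⟩
  · rintro ⟨-, h1, E, hE, h2, x, hx, h3⟩
    exact ⟨h1, E, hE, h2, x, hx, h3⟩

theorem dihX : dihedralSubfields K = XSub K 3 ∪ XSub K 4 := by
  ext F
  simp only [dihedralSubfields, XSub, GSub, GTyp, Set.mem_setOf_eq, exists_notMem, Set.mem_union]
  constructor
  · rintro ⟨h1, h2, h3 | h3⟩
    · exact Or.inl ⟨h1, h2, h3⟩
    · exact Or.inr ⟨h1, h2, h3⟩
  · rintro (⟨h1, h2, h3⟩ | ⟨h1, h2, h3⟩)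
    · exact ⟨h1, h2, Or.inl h3⟩
    · exact ⟨h1, h2, Or.inr h3⟩

theorem dihX_disj : Disjoint (XSub K 3) (XSub K 4) := by
  rw [Set.disjoint_left]
  rintro F ⟨h1, h2, ⟨e⟩⟩ ⟨h5, h6, ⟨e'⟩⟩
  have h := Nat.card_congr (e.symm.trans e').toEquiv
  rw [DihedralGroup.nat_card, DihedralGroup.nat_card] at h
  omega

theorem xsub_finite (k : Fin 5) : (XSub K k).Finite := by
  have : Finite (IntermediateField ℚ K) := Field.exists_primitive_element_iff_finite_intermediateField
    ℚ K |>.1 ⟨inferInstance, Field.exists_primitive_element ℚ K⟩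
  exact Set.toFinite _

/-- The sum of the expected contributions of the subfields. -/
theorem sumX_eq :
    ((quadraticSubfields K).ncard : ℝ) / √n +
      ((quarticSubfields K).ncard + (sexticSubfields K).ncard) / n +
      (dihedralSubfields K).ncard * Real.log n / n = ∑ k, (XSub K k).ncard * al k n := by
  rw [quadX, quartX, sextX, dihX,
    Set.ncard_union_eq dihX_disj (xsub_finite 3) (xsub_finite 4)]
  push_cast
  rw [← GU.finU_sum (n := (n : ℝ)) (fun k => al k n) rfl rfl rfl rfl rfl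
      (fun k => ((XSub K k).ncard : ℝ)) rfl rfl rfl rfl rfl]

end Pool.MP43e44c.GF
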