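import Pool.Agent.H.MP_43e44c_ag.GZ.SmF
import Pool.Agent.H.MP_43e44c_ag.GX.Fld
import Pool.Agent.H.MP_43e44c_ag.GX.FinY

/-!
CM fields: the upper bound.
-/

set_option autoImplicit false

open NumberField Finset Module

namespace Pool.MP43e44c.GF

open Pool.MP43e44c.GL Pool.MP43e44c.GZ Pool.MP43e44c.OD Pool.MP43e44c.GX

theorem al_nonneg (k : Fin 5) {n : ℕ} (hn : 1 ≤ n) : 0 ≤ al k n := by
  have hnR : (1 : ℝ) ≤ n := by exact_mod_cast hn
  have hn0 : (0 : ℝ) < n := by linarith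
  have hlog : 0 ≤ Real.log n := Real.log_nonneg hnR
  fin_cases k
  · exact div_nonneg zero_le_one (Real.sqrt_nonneg _)
  · exact div_nonneg zero_le_one hn0.le
  · exact div_nonneg zero_le_one hn0.le
  · exact div_nonneg hlog hn0.le
  · exact div_nonneg hlog hn0.le

/-- The upper bound for all CM fields. -/
theorem cm_upper.{u} :
    ∃ C c : ℝ, 0 < C ∧ 0 < c ∧
    ∀ {K : Type u} [Field K] [NumberField K] [IsCMField K] {n : ℕ}, finrank ℚ K = 2 * n →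
    ({Φ : Finset (K →+* ℂ) | IsCMType Φ ∧ ¬ HodgeRingGeneratedByDivisors Φ}.ncard : ℝ)
      ≤ C * (∑ k, (XSub K k).ncard * al k n + (n : ℝ) ^ (-c)) * 2 ^ n := by
  classical
  obtain ⟨C₁, hC₁, h₁⟩ := small_upper.{u}
  obtain ⟨C₂, c, hC₂, hc, h₂⟩ := GX.finX
  refine ⟨C₁ + C₂ + 2, c, by linarith, hc, ?_⟩
  intro K _ _ _ n hK
  have hn0 : 0 < n := by
    have := finrank_pos (R := ℚ) (M := K)
    omega
  have hnR : (0 : ℝ) < n := by exact_mod_cast hn0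
  have hpow : (0 : ℝ) < 2 ^ n := by positivity
  have hrp : 0 ≤ (n : ℝ) ^ (-c) := Real.rpow_nonneg hnR.le _
  have hsum0 : (0 : ℝ) ≤ ∑ k, (XSub K k).ncard * al k n :=
    Finset.sum_nonneg fun k _ => mul_nonneg (Nat.cast_nonneg _) (al_nonneg k hn0)
  obtain ⟨x₀⟩ : Nonempty (K →+* ℂ) := inferInstance
  obtain ⟨ι, fι, T, hι, hTc, hTS, hcore, hle⟩ := fldX hK x₀
  have hcard : Fintype.card (GG K) ≠ 0 := Fintype.card_ne_zero
  obtain ⟨W⟩ := exists_wd ℚ (GG K) (by exact_mod_cast hcard)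
  have hle' := hle W
  rcases Nat.lt_or_ge n 2 with hn1 | hn2
  · have hn : n = 1 := by omega
    have h3 : {Φ : Finset (K →+* ℂ) | IsCMType Φ ∧ ¬ HodgeRingGeneratedByDivisors Φ}.ncard ≤ 2 * 2 ^ n := by
      refine (Set.ncard_le_card _).trans (le_of_eq ?_)
      rw [Nat.card_eq_fintype_card, Fintype.card_finset, NumberField.Embeddings.card K ℂ, hK, hn]
      norm_num
    have h4 : ({Φ : Finset (K →+* ℂ) | IsCMType Φ ∧ ¬ HodgeRingGeneratedByDivisors Φ}.ncard : ℝ)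
        ≤ 2 * 2 ^ n := by exact_mod_cast h3
    refine h4.trans ?_
    have h5 : (n : ℝ) ^ (-c) = 1 := by rw [hn, Nat.cast_one, Real.one_rpow]
    rw [h5]
    have h6 : (2 : ℝ) ≤ (C₁ + C₂ + 2) * (∑ k, (XSub K k).ncard * al k n + 1) := by nlinarith
    nlinarith
  · have h3 := h₁ hK hn2
    have h4 := h₂ T hcore W (by rw [hι]; exact hn2)
    rw [hι] at h4
    have h5 : ({Φ : Finset (K →+* ℂ) | IsCMType Φ ∧ ¬ HodgeRingGeneratedByDivisors Φ}.ncard : ℝ) ≤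
        ({A : Finset (K →+* ℂ) | IsCMType A ∧ GZ.Sml (GG K)
          (ComplexEmbedding.conjugate : (K →+* ℂ) → (K →+* ℂ)) A}.ncard : ℝ) +
        ((⋃ i ∈ {i : Fin W.m | T.Odd W i ∧ 3 ≤ W.r i * finrank ℚ (W.D i)}, T.badI W i).ncard : ℝ) := by
      exact_mod_cast hle'
    refine h5.trans ?_
    refine (add_le_add h3 h4).trans ?_
    generalize (∑ k, ((XSub K k).ncard : ℝ) * al k n) = S at *
    have e : C₁ * S * 2 ^ n + C₂ * (n : ℝ) ^ (-c) * 2 ^ n =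
        (C₁ * S + C₂ * (n : ℝ) ^ (-c)) * 2 ^ n := by ring
    rw [e]
    apply mul_le_mul_of_nonneg_right _ hpow.le
    nlinarith [mul_nonneg hC₂.le hsum0, mul_nonneg hC₁.le hrp]

end Pool.MP43e44c.GF
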